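import Pool.Agent.Helper5.PQ.Stm
import Pool.Agent.Helper5.RD.PB

/-! # Project PQ, package B2: unfinished runs with exponents 0 and 1 -/

set_option autoImplicit false

namespace Pool.Agent.Helper82.PQ

open Finset Classical Pool.Agent.Helper5.RD Pool.Agent.Helper5.RD.PB Pool.Agent.Helper5.PQ

theorem b2 : S_B2 := by
  intro P γ hγ h0 h01 ps
  induction ps with
  | nil =>
    intro _ x b C hx hb E hE
    have hR : (1 : ℝ) ≤ ((C.1.card : ℝ) * C.2.card) ^ γ := by
      refine Real.one_le_rpow ?_ hγ
      have h1 : 0 < C.1.card := card_pos.2 ⟨x, hx⟩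
      have h2 : 0 < C.2.card := card_pos.2 ⟨b, hb⟩
      exact_mod_cast Nat.mul_pos h1 h2
    have h1 : E.filter (fun l => ¬ Fin1 P (run P (([] : List ℕ).zip l) C x b)) ⊆ {[]} := by
      intro l hl
      rw [mem_singleton]
      exact List.length_eq_zero_iff.1 (hE l (mem_filter.1 hl).1).1
    have h2 := card_le_card h1
    rw [card_singleton] at h2
    rw [List.length_nil, pow_zero, one_mul]
    have h3 : ((E.filter (fun l =>
        ¬ Fin1 P (run P (([] : List ℕ).zip l) C x b))).card : ℝ) ≤ 1 := by exact_mod_cast h2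
    exact h3.trans hR
  | cons p ps ih =>
    intro hps x b C hx hb E hE
    have hp : p.Prime := hps p (List.mem_cons_self)
    have hps' : ∀ q ∈ ps, q.Prime := fun q hq => hps q (List.mem_cons_of_mem _ hq)
    have hK0 : (0 : ℝ) < P.K0 := by exact_mod_cast h0
    have hK1 : (1 : ℝ) ≤ P.K0 := by exact_mod_cast h0
    set κ : ℝ := (P.K0 : ℝ) ^ (-γ) with hκ
    have hκ0 : 0 ≤ κ := Real.rpow_nonneg hK0.le _
    have hκ1 : κ ≤ 1 := Real.rpow_le_one_of_one_le_of_nonpos hK1 (by linarith)
    set M : ℝ := (1 + κ) ^ ps.length with hM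
    have hM0 : 0 ≤ M := by positivity
    set R : ℝ := ((C.1.card : ℝ) * C.2.card) ^ γ with hR
    have hR0 : 0 ≤ R := by positivity
    rcases Classical.em (Fin1 P C) with hfin | hfin
    · have h1 : E.filter (fun l => ¬ Fin1 P (run P ((p :: ps).zip l) C x b)) = ∅ := by
        refine filter_eq_empty_iff.2 fun l _ => ?_
        rw [run_fin _ hx hb hfin, not_not]
        exact hfin
      rw [h1, card_empty, Nat.cast_zero]
      positivity
    set g : ℕ → ℝ := fun k => (((slice E k).filter (fun l =>
      ¬ Fin1 P (run P (ps.zip l) (stp P p k C x b) x b))).card : ℝ) with hg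
    have hsl : ∀ k, g k ≤ M * (((stp P p k C x b).1.card : ℝ) * (stp P p k C x b).2.card) ^ γ := by
      intro k
      refine ih hps' x b (stp P p k C x b) (stp_mem hx hb).1 (stp_mem hx hb).2 (slice E k) ?_
      intro l hl
      obtain ⟨h1, h2⟩ := hE _ (mem_slice.1 hl)
      exact ⟨by simpa using h1, fun e he => h2 e (List.mem_cons_of_mem _ he)⟩
    have hbig : ∀ k, g k ≤ M * R := by
      intro k
      refine (hsl k).trans ?_
      have h1 : (stp P p k C x b).1.card ≤ C.1.card := card_le_card stp_sub.1
      have h2 : (stp P p k C x b).2.card ≤ C.2.card := card_le_card stp_sub.2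
      refine mul_le_mul_of_nonneg_left ?_ hM0
      rw [hR]
      gcongr
    have hsmall : ∀ k, k ≠ fst p P.K1 C.2 b - fst p P.K0 C.1 x → g k ≤ M * (κ * R) := by
      intro k hk
      refine (hsl k).trans ?_
      have hT : T1 P p k C.1 C.2 x b ∨ T0 P p k C.1 C.2 x b := by
        by_contra hT
        rw [not_or] at hT
        exact hk (special h0 hp.one_lt hfin hT.1 hT.2)
      have h1 := stp_card h01 hT
      have h2 : (((stp P p k C x b).1.card : ℝ) * (stp P p k C x b).2.card) ^ γ ≤ κ * R := by
        have h3 : ((stp P p k C x b).1.card : ℝ) * (stp P p k C x b).2.card ≤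
            (P.K0 : ℝ)⁻¹ * ((C.1.card : ℝ) * C.2.card) := by
          rw [inv_mul_eq_div, le_div_iff₀ hK0]
          exact_mod_cast h1
        calc _ ≤ ((P.K0 : ℝ)⁻¹ * ((C.1.card : ℝ) * C.2.card)) ^ γ :=
              Real.rpow_le_rpow (by positivity) h3 hγ
          _ = κ * R := by
              rw [Real.mul_rpow (by positivity) (by positivity), Real.inv_rpow hK0.le,
                ← Real.rpow_neg hK0.le]
      gcongr
    have hsum : ((E.filter (fun l => ¬ Fin1 P (run P ((p :: ps).zip l) C x b))).card : ℝ) ≤
        g 0 + g 1 := by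
      have h1 : E.filter (fun l => ¬ Fin1 P (run P ((p :: ps).zip l) C x b)) ⊆
          (((slice E 0).filter (fun l => ¬ Fin1 P (run P (ps.zip l) (stp P p 0 C x b) x b))).image
            (List.cons 0)) ∪
          (((slice E 1).filter (fun l => ¬ Fin1 P (run P (ps.zip l) (stp P p 1 C x b) x b))).image
            (List.cons 1)) := by
        intro l hl
        rw [mem_filter] at hl
        obtain ⟨h2, h3⟩ := hE l hl.1
        cases l with
        | nil => simp at h2
        | cons a l =>
          have h4 : a ≤ 1 := h3 a (List.mem_cons_self)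
          have h5 : run P ((p :: ps).zip (a :: l)) C x b =
              run P (ps.zip l) (stp P p a C x b) x b := rfl
          have h6 := hl.2
          rw [h5] at h6
          have h7 : a = 0 ∨ a = 1 := by omega
          rcases h7 with h7 | h7
          · subst h7
            exact mem_union_left _ (mem_image.2 ⟨l, mem_filter.2 ⟨mem_slice.2 hl.1, h6⟩, rfl⟩)
          · subst h7
            exact mem_union_right _ (mem_image.2 ⟨l, mem_filter.2 ⟨mem_slice.2 hl.1, h6⟩, rfl⟩)
      have h2 := (card_le_card h1).trans ((card_union_le _ _).trans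
        (Nat.add_le_add card_image_le card_image_le))
      rw [hg]
      beta_reduce
      exact_mod_cast h2
    have hfin2 : g 0 + g 1 ≤ M * R + M * (κ * R) := by
      by_cases h1 : (0 : ℕ) = fst p P.K1 C.2 b - fst p P.K0 C.1 x
      · exact add_le_add (hbig 0) (hsmall 1 (by omega))
      · have h2 := add_le_add (hsmall 0 h1) (hbig 1)
        linarith
    refine (hsum.trans hfin2).trans (le_of_eq ?_)
    rw [List.length_cons, pow_succ]
    ring

end Pool.Agent.Helper82.PQ
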